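import Pool.Agent.Lib.PntAP.Tauber

/-!
# The prime number theorem in arithmetic progressions (fixed modulus)
-/

set_option autoImplicit false

open MeasureTheory Filter Topology Set Complex

namespace Pool.Agent.PntAP

open ArithmeticFunction ArithmeticFunction.vonMangoldt

variable {q : ℕ} {a : ZMod q}

lemma summ_residueClass_le (a : ZMod q) (x : ℝ) (hx : 0 ≤ x) :
    summ (residueClass a) x ≤ (Real.log 4 + 4) * x := by
  refine le_trans ?_ (Chebyshev.psi_le_const_mul_self hx)
  rw [Chebyshev.psi]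
  unfold summ
  have : Finset.Icc 1 ⌊x⌋₊ = Finset.Ioc 0 ⌊x⌋₊ := by
    ext n; simp [Finset.mem_Icc, Finset.mem_Ioc, Nat.succ_le_iff]
  rw [this]
  exact Finset.sum_le_sum fun n _ => residueClass_le a n

/-- `ψ(x; q, a) ~ x / φ(q)`. -/
theorem psiAP_tendsto [NeZero q] (ha : IsUnit a) :
    Tendsto (fun x : ℝ => summ (residueClass a) x / x) atTop (𝓝 ((q.totient : ℝ)⁻¹)) := by
  refine wiener_ikehara (residueClass_nonneg a) (C := Real.log 4 + 4)
    (fun x hx => summ_residueClass_le a x hx) _ (F := LFunctionResidueClassAux a)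
    (continuousOn_LFunctionResidueClassAux a) ?_
  intro s hs
  have := eqOn_LFunctionResidueClassAux ha (x := s) hs
  rw [this]
  push_cast
  rfl

/-- The primes up to `x` in the class `a`. -/
noncomputable def primesAP (a : ZMod q) (x : ℝ) : Finset ℕ :=
  open scoped Classical in
  (Finset.Icc 1 ⌊x⌋₊).filter (fun p => p.Prime ∧ (p : ZMod q) = a)

/-- `θ(x; q, a)`. -/
noncomputable def thetaAP (a : ZMod q) (x : ℝ) : ℝ := ∑ p ∈ primesAP a x, Real.log p

lemma mem_primesAP {a : ZMod q} {x : ℝ} {p : ℕ} :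
    p ∈ primesAP a x ↔ (1 ≤ p ∧ p ≤ ⌊x⌋₊) ∧ p.Prime ∧ (p : ZMod q) = a := by
  classical
  unfold primesAP
  rw [Finset.mem_filter, Finset.mem_Icc]

lemma thetaAP_eq (a : ZMod q) (x : ℝ) :
    thetaAP a x = ∑ n ∈ Finset.Icc 1 ⌊x⌋₊, (if n.Prime then residueClass a n else 0) := by
  classical
  unfold thetaAP primesAP
  rw [Finset.sum_filter]
  refine Finset.sum_congr rfl fun n _ => ?_
  by_cases hp : n.Prime
  · by_cases hn : (n : ZMod q) = a
    · simp only [hp, hn, true_and, if_true]
      unfold residueClass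
      rw [indicator_of_mem (by exact hn), vonMangoldt_apply_prime hp]
    · simp only [hp, hn, and_false, if_false, if_true]
      unfold residueClass
      rw [indicator_of_notMem (by exact hn)]
  · simp [hp]

lemma summ_sub_thetaAP_le (a : ZMod q) {x : ℝ} (hx : 1 ≤ x) :
    |summ (residueClass a) x - thetaAP a x| ≤ 2 * √x * Real.log x := by
  rw [thetaAP_eq]
  unfold summ
  rw [← Finset.sum_sub_distrib]
  have h1 : ∀ n ∈ Finset.Icc 1 ⌊x⌋₊, 0 ≤ residueClass a n - (if n.Prime then residueClass a n else 0) := by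
    intro n _
    split_ifs
    · simp
    · simpa using residueClass_nonneg a n
  rw [abs_of_nonneg (Finset.sum_nonneg h1)]
  refine le_trans ?_ (Chebyshev.psi_sub_theta_le hx)
  rw [Chebyshev.psi, Chebyshev.theta]
  have hIcc : Finset.Icc 1 ⌊x⌋₊ = Finset.Ioc 0 ⌊x⌋₊ := by
    ext n; simp [Finset.mem_Icc, Finset.mem_Ioc, Nat.succ_le_iff]
  rw [hIcc, Finset.sum_filter, ← Finset.sum_sub_distrib]
  refine Finset.sum_le_sum fun n _ => ?_
  by_cases hp : n.Prime
  · simp only [hp, if_true]
    rw [vonMangoldt_apply_prime hp]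
    simp
  · simp only [hp, if_false, sub_zero]
    exact residueClass_le a n

lemma tendsto_sqrt_mul_log_div : Tendsto (fun x : ℝ => 2 * √x * Real.log x / x) atTop (𝓝 0) := by
  have h : (fun x : ℝ => Real.log x) =o[atTop] (fun x : ℝ => x ^ (1/2 : ℝ)) :=
    isLittleO_log_rpow_atTop (by norm_num)
  have h2 := (h.tendsto_div_nhds_zero).const_mul 2
  rw [mul_zero] at h2
  refine h2.congr' ?_
  filter_upwards [eventually_gt_atTop 0] with x hx
  rw [← Real.sqrt_eq_rpow]
  have hs : √x * √x = x := Real.mul_self_sqrt hx.le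
  have hs0 : 0 < √x := Real.sqrt_pos.mpr hx
  rw [show 2 * √x * Real.log x / x = 2 * √x * Real.log x / (√x * √x) by rw [hs]]
  field_simp

/-- `θ(x; q, a) ~ x / φ(q)`. -/
theorem thetaAP_tendsto [NeZero q] (ha : IsUnit a) :
    Tendsto (fun x : ℝ => thetaAP a x / x) atTop (𝓝 ((q.totient : ℝ)⁻¹)) := by
  have h1 := psiAP_tendsto ha
  have h2 : Tendsto (fun x : ℝ => (summ (residueClass a) x - thetaAP a x) / x) atTop (𝓝 0) := by
    refine squeeze_zero_norm' ?_ tendsto_sqrt_mul_log_div
    filter_upwards [eventually_ge_atTop 1] with x hx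
    rw [norm_div, Real.norm_eq_abs, Real.norm_of_nonneg (by linarith : (0:ℝ) ≤ x)]
    gcongr
    exact summ_sub_thetaAP_le a hx
  have h3 := h1.sub h2
  rw [sub_zero] at h3
  refine h3.congr fun x => ?_
  ring

/-- `π(x; q, a)`. -/
noncomputable def piAP (a : ZMod q) (x : ℝ) : ℕ := (primesAP a x).card

lemma thetaAP_le (a : ZMod q) {x : ℝ} (hx : 1 ≤ x) : thetaAP a x ≤ piAP a x * Real.log x := by
  unfold thetaAP piAP
  rw [← nsmul_eq_mul]
  refine Finset.sum_le_card_nsmul _ _ _ fun p hp => ?_
  have := (mem_primesAP.mp hp).1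
  refine Real.log_le_log (by exact_mod_cast this.1) ?_
  exact (Nat.le_floor_iff (by linarith)).mp this.2

lemma le_thetaAP (a : ZMod q) {x y : ℝ} (hy : 1 ≤ y) :
    ((piAP a x : ℝ) - y) * Real.log y ≤ thetaAP a x := by
  classical
  unfold thetaAP piAP
  set T : Finset ℕ := (primesAP a x).filter (fun p : ℕ => y < (p:ℝ)) with hT
  have h1 : (primesAP a x).card ≤ T.card + ⌊y⌋₊ := by
    have h2 : (primesAP a x).filter (fun p : ℕ => ¬ (y < (p:ℝ))) ⊆ Finset.Icc 1 ⌊y⌋₊ := by
      intro p hp
      rw [Finset.mem_filter] at hp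
      rw [Finset.mem_Icc]
      refine ⟨(mem_primesAP.mp hp.1).1.1, ?_⟩
      exact Nat.le_floor (not_lt.mp hp.2)
    have h3 := Finset.card_le_card h2
    rw [Nat.card_Icc] at h3
    have h4 : ((primesAP a x).filter (fun p : ℕ => y < (p:ℝ))).card
        + ((primesAP a x).filter (fun p : ℕ => ¬ (y < (p:ℝ)))).card = (primesAP a x).card := by
      convert Finset.card_filter_add_card_filter_not (s := primesAP a x) (fun p : ℕ => y < (p:ℝ))
    rw [← hT] at h4
    omega
  have h5 : ((primesAP a x).card : ℝ) - y ≤ T.card := by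
    have : ((primesAP a x).card : ℝ) ≤ T.card + ⌊y⌋₊ := by exact_mod_cast h1
    have h6 : (⌊y⌋₊ : ℝ) ≤ y := Nat.floor_le (by linarith)
    linarith
  have hlog : 0 ≤ Real.log y := Real.log_nonneg hy
  calc (((primesAP a x).card : ℝ) - y) * Real.log y ≤ T.card * Real.log y := by gcongr
    _ = ∑ _p ∈ T, Real.log y := by rw [Finset.sum_const, nsmul_eq_mul]
    _ ≤ ∑ p ∈ T, Real.log p := by
        refine Finset.sum_le_sum fun p hp => ?_
        rw [hT, Finset.mem_filter] at hp
        exact Real.log_le_log (by linarith) hp.2.le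
    _ ≤ ∑ p ∈ primesAP a x, Real.log p := by
        refine Finset.sum_le_sum_of_subset_of_nonneg (Finset.filter_subset _ _) ?_
        intro p hp _
        refine Real.log_nonneg ?_
        exact_mod_cast (mem_primesAP.mp hp).1.1

/-- **Prime number theorem in arithmetic progressions**: `π(x; q, a) ~ x / (φ(q) log x)`. -/
theorem piAP_tendsto [NeZero q] (ha : IsUnit a) :
    Tendsto (fun x : ℝ => piAP a x * Real.log x / x) atTop (𝓝 ((q.totient : ℝ)⁻¹)) := by
  have h1 := thetaAP_tendsto ha
  -- upper bound function: θ/x * (log x / log y) + y log x / x with y = x / (log x)^2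
  have hlog := Real.tendsto_log_atTop
  have hLL : Tendsto (fun x : ℝ => Real.log (Real.log x) / Real.log x) atTop (𝓝 0) := by
    have h := (Real.isLittleO_log_id_atTop.tendsto_div_nhds_zero).comp hlog
    exact h
  have hratio : Tendsto (fun x : ℝ => Real.log x / Real.log (x / (Real.log x) ^ 2)) atTop (𝓝 1) := by
    have h2 : Tendsto (fun x : ℝ => (1 - 2 * (Real.log (Real.log x) / Real.log x))⁻¹) atTop
        (𝓝 ((1 - 2 * 0)⁻¹)) := by
      refine Tendsto.inv₀ ?_ (by norm_num)
      exact (hLL.const_mul 2).const_sub 1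
    rw [mul_zero, sub_zero, inv_one] at h2
    refine h2.congr' ?_
    filter_upwards [eventually_gt_atTop 0, hlog.eventually_gt_atTop 1] with x hx hl
    have hl0 : 0 < Real.log x := by linarith
    rw [Real.log_div hx.ne' (by positivity), Real.log_pow]
    push_cast
    rw [show Real.log x - 2 * Real.log (Real.log x)
      = Real.log x * (1 - 2 * (Real.log (Real.log x) / Real.log x)) by field_simp]
    by_cases h0 : (1 - 2 * (Real.log (Real.log x) / Real.log x)) = 0
    · rw [h0]; simp
    · field_simp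
  have hsmall : Tendsto (fun x : ℝ => (x / (Real.log x) ^ 2) * Real.log x / x) atTop (𝓝 0) := by
    have h2 : Tendsto (fun x : ℝ => (Real.log x)⁻¹) atTop (𝓝 0) := tendsto_inv_atTop_zero.comp hlog
    refine h2.congr' ?_
    filter_upwards [eventually_gt_atTop 0, hlog.eventually_gt_atTop 1] with x hx hl
    have hl0 : 0 < Real.log x := by linarith
    field_simp
  have hup := (h1.mul hratio).add hsmall
  rw [mul_one, add_zero] at hup
  refine tendsto_of_tendsto_of_tendsto_of_le_of_le' h1 hup ?_ ?_
  · filter_upwards [eventually_ge_atTop 1] with x hx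
    have := thetaAP_le a hx
    gcongr
  · have hy1 : ∀ᶠ x : ℝ in atTop, Real.exp 1 ≤ x / (Real.log x) ^ 2 := by
      have h3 : (fun x : ℝ => Real.log x ^ 2) =o[atTop] (fun x : ℝ => x) := Real.isLittleO_pow_log_id_atTop
      have h4 := h3.bound (show (0:ℝ) < (Real.exp 1)⁻¹ by positivity)
      filter_upwards [h4, eventually_gt_atTop 0, hlog.eventually_gt_atTop 1] with x h5 hx hl
      rw [Real.norm_of_nonneg (by positivity), Real.norm_of_nonneg hx.le] at h5
      have hl0 : 0 < Real.log x := by linarith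
      rw [le_div_iff₀ (by positivity)]
      have : Real.exp 1 * (Real.log x ^ 2) ≤ Real.exp 1 * ((Real.exp 1)⁻¹ * x) := by gcongr
      rwa [← mul_assoc, mul_inv_cancel₀ (Real.exp_pos 1).ne', one_mul] at this
    filter_upwards [hy1, eventually_gt_atTop 1, hlog.eventually_gt_atTop 1] with x hy hx hl
    set y := x / (Real.log x) ^ 2 with hydef
    have hy1' : 1 ≤ y := le_trans (by linarith [Real.add_one_le_exp (1:ℝ)]) hy
    have hlogy : 1 ≤ Real.log y := by
      rw [← Real.log_exp 1]
      exact Real.log_le_log (Real.exp_pos 1) hy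
    have h2 := le_thetaAP a (x := x) hy1'
    have hx0 : 0 < x := by linarith
    have hl0 : 0 < Real.log x := by linarith
    have hly0 : 0 < Real.log y := by linarith
    have h3 : (piAP a x : ℝ) ≤ thetaAP a x / Real.log y + y := by
      rw [← sub_le_iff_le_add, le_div_iff₀ hly0]
      exact h2
    calc (piAP a x : ℝ) * Real.log x / x ≤ (thetaAP a x / Real.log y + y) * Real.log x / x := by gcongr
      _ = thetaAP a x / x * (Real.log x / Real.log y) + y * Real.log x / x := by
        field_simp

end Pool.Agent.PntAP
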