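import Mathlib

/-!
# The Fejer kernel (auxiliary for the Wiener-Ikehara theorem)
-/

set_option autoImplicit false

open MeasureTheory Filter Topology Set Complex

namespace Pool.Agent.PntAP

/-- The Fejer kernel `∫ t in -l..l, (1 - |t|/l) e^{itv}`, in closed form. -/
noncomputable def fejer (l v : ℝ) : ℝ :=
  if v = 0 then l else 2 * (1 - Real.cos (l * v)) / (l * v ^ 2)

lemma fejer_zero (l : ℝ) : fejer l 0 = l := by simp [fejer]

lemma fejer_of_ne {l v : ℝ} (hv : v ≠ 0) :
    fejer l v = 2 * (1 - Real.cos (l * v)) / (l * v ^ 2) := by simp [fejer, hv]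

lemma fejer_neg (l v : ℝ) : fejer l (-v) = fejer l v := by
  by_cases hv : v = 0
  · simp [hv]
  · rw [fejer_of_ne hv, fejer_of_ne (neg_ne_zero.mpr hv)]
    simp [Real.cos_neg]

lemma fejer_nonneg {l : ℝ} (hl : 0 < l) (v : ℝ) : 0 ≤ fejer l v := by
  by_cases hv : v = 0
  · simp [hv, fejer_zero, hl.le]
  · rw [fejer_of_ne hv]
    have : 0 ≤ 1 - Real.cos (l * v) := by linarith [Real.cos_le_one (l * v)]
    positivity

lemma fejer_le {l : ℝ} (hl : 0 < l) (v : ℝ) : fejer l v ≤ l := by
  by_cases hv : v = 0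
  · simp [hv, fejer_zero]
  · rw [fejer_of_ne hv]
    have h := Real.one_sub_sq_div_two_le_cos (x := l * v)
    have hv2 : 0 < v ^ 2 := by positivity
    rw [div_le_iff₀ (by positivity)]
    nlinarith

lemma fejer_le' {l : ℝ} (hl : 0 < l) {v : ℝ} (hv : v ≠ 0) : fejer l v ≤ 4 / (l * v ^ 2) := by
  rw [fejer_of_ne hv]
  have h := Real.neg_one_le_cos (l * v)
  have hv2 : 0 < v ^ 2 := by positivity
  gcongr
  linarith

lemma le_fejer {l : ℝ} (hl : 0 < l) {v : ℝ} (hv : |l * v| ≤ 1) : 4 / Real.pi ^ 2 * l ≤ fejer l v := by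
  by_cases hv0 : v = 0
  · subst hv0
    rw [fejer_zero]
    have hpi : (4:ℝ) ≤ Real.pi ^ 2 := by nlinarith [Real.pi_gt_three]
    have : 4 / Real.pi ^ 2 ≤ 1 := by
      rw [div_le_one (by positivity)]; exact hpi
    nlinarith
  · rw [fejer_of_ne hv0]
    have h := Real.cos_le_one_sub_mul_cos_sq (x := l * v) (hv.trans (by linarith [Real.pi_gt_three]))
    have hv2 : 0 < v ^ 2 := by positivity
    rw [le_div_iff₀ (by positivity)]
    have e : 4 / Real.pi ^ 2 * l * (l * v ^ 2) = 2 * (2 / Real.pi ^ 2 * (l * v) ^ 2) := by ring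
    rw [e]
    linarith

lemma measurable_fejer (l : ℝ) : Measurable (fejer l) := by
  unfold fejer
  refine Measurable.ite (measurableSet_singleton 0) measurable_const ?_
  fun_prop

lemma integrable_fejer {l : ℝ} (hl : 0 < l) : Integrable (fejer l) := by
  have hbound : ∀ v : ℝ, ‖fejer l v‖ ≤ (max l (4 / l) * 2) * (1 + v ^ 2)⁻¹ := by
    intro v
    rw [Real.norm_of_nonneg (fejer_nonneg hl v)]
    have h1 : l ≤ max l (4 / l) := le_max_left _ _
    have h2 : 4 / l ≤ max l (4 / l) := le_max_right _ _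
    have hm : 0 < max l (4 / l) := lt_of_lt_of_le hl h1
    rw [← div_eq_mul_inv, le_div_iff₀ (by positivity)]
    by_cases hv : v ^ 2 ≤ 1
    · have := fejer_le hl v
      have h0 := fejer_nonneg hl v
      nlinarith
    · push Not at hv
      have hv0 : v ≠ 0 := by rintro rfl; norm_num at hv
      have h3 := fejer_le' hl hv0
      have h4 : 4 / (l * v ^ 2) * (1 + v ^ 2) ≤ 4 / l * 2 := by
        rw [div_mul_eq_mul_div, div_mul_eq_mul_div, div_le_div_iff₀ (by positivity) (by positivity)]
        nlinarith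
      have h0 := fejer_nonneg hl v
      nlinarith
  exact Integrable.mono' (integrable_inv_one_add_sq.const_mul _)
    (measurable_fejer l).aestronglyMeasurable (Eventually.of_forall hbound)

/-- The Fourier integral of the triangle function is the Fejer kernel. -/
lemma integral_triangle {l : ℝ} (hl : 0 < l) (v : ℝ) :
    ∫ t in (-l)..l, ((1 - |t| / l : ℝ) : ℂ) * cexp (I * t * v) = (fejer l v : ℂ) := by
  have hcont : Continuous fun t : ℝ => ((1 - |t| / l : ℝ) : ℂ) * cexp (I * t * v) := by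
    fun_prop
  have hlc : (l : ℂ) ≠ 0 := by exact_mod_cast hl.ne'
  rw [← intervalIntegral.integral_add_adjacent_intervals (b := 0)
    (hcont.intervalIntegrable _ _) (hcont.intervalIntegrable _ _)]
  have e1 : ∫ t in (-l)..0, ((1 - |t| / l : ℝ) : ℂ) * cexp (I * t * v)
      = ∫ t in (-l)..0, (1 + (t : ℂ) / l) * cexp ((I * v) * t) := by
    apply intervalIntegral.integral_congr
    intro t ht
    rw [uIcc_of_le (by linarith)] at ht
    simp only
    rw [abs_of_nonpos ht.2]
    push_cast
    ring_nf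
  have e2 : ∫ t in (0:ℝ)..l, ((1 - |t| / l : ℝ) : ℂ) * cexp (I * t * v)
      = ∫ t in (0:ℝ)..l, (1 - (t : ℂ) / l) * cexp ((I * v) * t) := by
    apply intervalIntegral.integral_congr
    intro t ht
    rw [uIcc_of_le hl.le] at ht
    simp only
    rw [abs_of_nonneg ht.1]
    push_cast
    ring_nf
  rw [e1, e2]
  by_cases hv : v = 0
  · subst hv
    simp only [ofReal_zero, mul_zero, zero_mul, Complex.exp_zero, mul_one, fejer_zero]
    have d1 : ∀ x ∈ uIcc (-l) 0, HasDerivAt (fun t : ℝ => (t : ℂ) + (t:ℂ) ^ 2 / (2 * l)) (1 + (x:ℂ) / l) x := by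
      intro x _
      have h1 : HasDerivAt (fun t : ℝ => (t : ℂ)) 1 x := Complex.ofRealCLM.hasDerivAt
      have h2 : HasDerivAt (fun t : ℝ => (t : ℂ) ^ 2 / (2 * l)) (2 * (x:ℂ) / (2 * l)) x := by
        have := (h1.pow 2).div_const (2 * (l:ℂ))
        simpa using! this
      have := h1.add h2
      convert! this using 1
      field_simp
    have d2 : ∀ x ∈ uIcc 0 l, HasDerivAt (fun t : ℝ => (t : ℂ) - (t:ℂ) ^ 2 / (2 * l)) (1 - (x:ℂ) / l) x := by
      intro x _
      have h1 : HasDerivAt (fun t : ℝ => (t : ℂ)) 1 x := Complex.ofRealCLM.hasDerivAt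
      have h2 : HasDerivAt (fun t : ℝ => (t : ℂ) ^ 2 / (2 * l)) (2 * (x:ℂ) / (2 * l)) x := by
        have := (h1.pow 2).div_const (2 * (l:ℂ))
        simpa using! this
      have := h1.sub h2
      convert! this using 1
      field_simp
    rw [intervalIntegral.integral_eq_sub_of_hasDerivAt d1
        (Continuous.intervalIntegrable (by fun_prop) _ _),
      intervalIntegral.integral_eq_sub_of_hasDerivAt d2
        (Continuous.intervalIntegrable (by fun_prop) _ _)]
    push_cast
    field_simp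
    ring
  · have hc : (I * (v:ℂ)) ≠ 0 := mul_ne_zero I_ne_zero (by exact_mod_cast hv)
    set c : ℂ := I * v with hcdef
    have dexp : ∀ x : ℝ, HasDerivAt (fun t : ℝ => cexp (c * t)) (c * cexp (c * x)) x := by
      intro x
      have h1 : HasDerivAt (fun t : ℝ => (t : ℂ)) 1 x := Complex.ofRealCLM.hasDerivAt
      have h2 : HasDerivAt (fun t : ℝ => c * (t : ℂ)) (c * 1) x := h1.const_mul c
      have h3 := h2.cexp
      convert! h3 using 1
      ring
    have d1 : ∀ x ∈ uIcc (-l) 0, HasDerivAt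
        (fun t : ℝ => (1 + (t : ℂ) / l) * cexp (c * t) / c - cexp (c * t) / (l * c ^ 2))
        ((1 + (x:ℂ) / l) * cexp (c * x)) x := by
      intro x _
      have h1 : HasDerivAt (fun t : ℝ => (1 + (t : ℂ) / l)) (1 / (l:ℂ)) x := by
        have : HasDerivAt (fun t : ℝ => (t : ℂ)) 1 x := Complex.ofRealCLM.hasDerivAt
        simpa using! (this.div_const (l:ℂ)).const_add 1
      have h := ((h1.mul (dexp x)).div_const c).sub ((dexp x).div_const ((l:ℂ) * c ^ 2))
      convert! h using 1
      field_simp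
      ring
    have d2 : ∀ x ∈ uIcc 0 l, HasDerivAt
        (fun t : ℝ => (1 - (t : ℂ) / l) * cexp (c * t) / c + cexp (c * t) / (l * c ^ 2))
        ((1 - (x:ℂ) / l) * cexp (c * x)) x := by
      intro x _
      have h1 : HasDerivAt (fun t : ℝ => (1 - (t : ℂ) / l)) (-(1 / (l:ℂ))) x := by
        have : HasDerivAt (fun t : ℝ => (t : ℂ)) 1 x := Complex.ofRealCLM.hasDerivAt
        simpa using! (this.div_const (l:ℂ)).const_sub 1
      have h := ((h1.mul (dexp x)).div_const c).add ((dexp x).div_const ((l:ℂ) * c ^ 2))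
      convert! h using 1
      field_simp
      ring
    rw [intervalIntegral.integral_eq_sub_of_hasDerivAt d1
        (Continuous.intervalIntegrable (by fun_prop) _ _),
      intervalIntegral.integral_eq_sub_of_hasDerivAt d2
        (Continuous.intervalIntegrable (by fun_prop) _ _)]
    rw [fejer_of_ne hv]
    have hcos : cexp (c * l) + cexp (-(c * l)) = 2 * Complex.cos (l * v) := by
      rw [Complex.cos, hcdef]
      ring_nf
    have hc2 : c ^ 2 = -(v:ℂ) ^ 2 := by
      rw [hcdef, mul_pow, I_sq]; ring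
    push_cast
    have hvc : (v:ℂ) ≠ 0 := by exact_mod_cast hv
    have key : (1 + 0 / (l:ℂ)) * cexp (c * 0) / c - cexp (c * 0) / (l * c ^ 2) -
        ((1 + -(l:ℂ) / l) * cexp (c * -l) / c - cexp (c * -l) / (l * c ^ 2)) +
        ((1 - (l:ℂ) / l) * cexp (c * l) / c + cexp (c * l) / (l * c ^ 2) -
        ((1 - 0 / (l:ℂ)) * cexp (c * 0) / c + cexp (c * 0) / (l * c ^ 2)))
        = ((cexp (c * l) + cexp (-(c * l))) - 2) / (l * c ^ 2) := by
      rw [mul_zero, Complex.exp_zero, mul_neg, div_self hlc, neg_div, div_self hlc]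
      field_simp
      ring
    rw [key, hcos, hc2]
    field_simp
    ring

end Pool.Agent.PntAP
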