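import Pool.Agent.Lib.PntAP.WienerIkehara

/-!
# The Wiener-Ikehara theorem: Tauberian conclusion
-/

set_option autoImplicit false

open MeasureTheory Filter Topology Set Complex

namespace Pool.Agent.PntAP

lemma fejer_abs (l v : ℝ) : fejer l |v| = fejer l v := by
  rcases abs_choice v with h | h <;> rw [h]
  exact fejer_neg l v

lemma integral_tail_fejer {l a : ℝ} (hl : 0 < l) (ha : 0 < a) :
    ∫ v in {v : ℝ | a < |v|}, fejer l v ≤ 8 / (l * a) := by
  have hms : MeasurableSet {v : ℝ | a < |v|} := measurableSet_lt measurable_const (by fun_prop)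
  rw [← integral_indicator hms]
  have e1 : ∀ v : ℝ, ({v : ℝ | a < |v|}.indicator (fejer l) v) = (Ioi a).indicator (fejer l) |v| := by
    intro v
    by_cases hv : a < |v|
    · rw [indicator_of_mem (by exact hv), indicator_of_mem (by exact hv), fejer_abs]
    · rw [indicator_of_notMem (by exact hv), indicator_of_notMem (by exact hv)]
  simp_rw [e1]
  rw [integral_comp_abs (f := (Ioi a).indicator (fejer l))]
  have e2 : ∫ x in Ioi (0:ℝ), (Ioi a).indicator (fejer l) x = ∫ x in Ioi a, fejer l x := by
    rw [← integral_indicator measurableSet_Ioi, ← integral_indicator measurableSet_Ioi]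
    congr 1
    ext x
    by_cases hx : a < x
    · rw [indicator_of_mem (by exact ha.trans hx)]
    · have h1 : (Ioi a).indicator (fejer l) x = 0 := indicator_of_notMem (by exact hx) _
      rw [h1]
      by_cases hx0 : x ∈ Ioi (0:ℝ)
      · rw [indicator_of_mem hx0, h1]
      · rw [indicator_of_notMem hx0]
  rw [e2]
  have e3 : ∫ x in Ioi a, fejer l x ≤ ∫ x in Ioi a, (4 / l) * x ^ (-2 : ℝ) := by
    refine setIntegral_mono_on (integrable_fejer hl).integrableOn
      ((integrableOn_Ioi_rpow_of_lt (by norm_num) ha).const_mul _) measurableSet_Ioi ?_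
    intro x hx
    have hx0 : 0 < x := ha.trans hx
    refine (fejer_le' hl hx0.ne').trans (le_of_eq ?_)
    rw [Real.rpow_neg hx0.le, show (2:ℝ) = ((2:ℕ):ℝ) by norm_num, Real.rpow_natCast]
    field_simp
  have e4 : ∫ x in Ioi a, (4 / l) * x ^ (-2 : ℝ) = 4 / (l * a) := by
    rw [integral_const_mul, integral_Ioi_rpow_of_lt (by norm_num) ha]
    norm_num
    rw [Real.rpow_neg ha.le, Real.rpow_one]
    field_simp
  rw [e4] at e3
  have : 8 / (l * a) = 2 * (4 / (l * a)) := by ring
  rw [this]
  linarith

lemma integral_center_fejer {l a : ℝ} (hl : 0 < l) (hla : 1 / l ≤ a) (c : ℝ) :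
    8 / Real.pi ^ 2 ≤ ∫ u in Icc (c - a) (c + a), fejer l (c - u) := by
  have hi : Integrable (fun u => fejer l (c - u)) := (integrable_fejer hl).comp_sub_left c
  have h1 : ∫ u in Icc (c - 1 / l) (c + 1 / l), fejer l (c - u)
      ≤ ∫ u in Icc (c - a) (c + a), fejer l (c - u) := by
    refine setIntegral_mono_set hi.integrableOn ?_ ?_
    · exact Eventually.of_forall fun u => fejer_nonneg hl _
    · exact (Icc_subset_Icc (by linarith) (by linarith)).eventuallyLE
  refine le_trans ?_ h1
  have h2 : ∫ _u in Icc (c - 1 / l) (c + 1 / l), (4 / Real.pi ^ 2 * l)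
      ≤ ∫ u in Icc (c - 1 / l) (c + 1 / l), fejer l (c - u) := by
    refine setIntegral_mono_on continuous_const.integrableOn_Icc hi.integrableOn measurableSet_Icc ?_
    intro u hu
    refine le_fejer hl ?_
    rw [abs_mul, abs_of_pos hl]
    have : |c - u| ≤ 1 / l := by
      rw [abs_le]; constructor <;> linarith [hu.1, hu.2]
    calc l * |c - u| ≤ l * (1 / l) := by gcongr
      _ = 1 := by field_simp
  refine le_trans (le_of_eq ?_) h2
  rw [setIntegral_const, smul_eq_mul, Real.volume_real_Icc_of_le (by
    have : 0 < 1 / l := by positivity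
    linarith)]
  field_simp
  ring

/-- Comparison of a convolution with the Fejer kernel with the behaviour of the function near the
centre. -/
lemma conv_lower {b : ℝ → ℝ} (hb : Measurable b) {M : ℝ} (hM : ∀ u, |b u| ≤ M) {l a c m : ℝ}
    (hl : 0 < l) (ha : 0 < a) (hc : a < c)
    (hm : ∀ u ∈ Icc (c - a) (c + a), m ≤ b u) :
    m * (∫ u in Icc (c - a) (c + a), fejer l (c - u))
      ≤ (∫ u in Ioi (0:ℝ), b u * fejer l (c - u)) + M * (8 / (l * a)) := by
  have hM0 : 0 ≤ M := (abs_nonneg _).trans (hM 0)
  have hi : Integrable (fun u => fejer l (c - u)) := (integrable_fejer hl).comp_sub_left c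
  have hfm : Measurable (fun u => fejer l (c - u)) := (measurable_fejer l).comp (by fun_prop)
  have hbi : Integrable (fun u => b u * fejer l (c - u)) := by
    refine (hi.const_mul M).mono' (hb.mul hfm).aestronglyMeasurable (Eventually.of_forall fun u => ?_)
    rw [norm_mul, Real.norm_eq_abs, Real.norm_of_nonneg (fejer_nonneg hl _)]
    exact mul_le_mul_of_nonneg_right (hM u) (fejer_nonneg hl _)
  have hsub : Icc (c - a) (c + a) ⊆ Ioi (0:ℝ) := by
    intro u hu
    have := hu.1
    exact lt_of_lt_of_le (by linarith) this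
  have hsplit : ∫ u in Ioi (0:ℝ), b u * fejer l (c - u)
      = (∫ u in Icc (c - a) (c + a), b u * fejer l (c - u))
        + ∫ u in Ioi (0:ℝ) \ Icc (c - a) (c + a), b u * fejer l (c - u) := by
    have := integral_inter_add_sdiff (μ := volume) (s := Ioi (0:ℝ)) (t := Icc (c - a) (c + a))
      (f := fun u => b u * fejer l (c - u)) measurableSet_Icc hbi.integrableOn
    rw [← this, inter_eq_self_of_subset_right hsub]
  have h1 : m * (∫ u in Icc (c - a) (c + a), fejer l (c - u))
      ≤ ∫ u in Icc (c - a) (c + a), b u * fejer l (c - u) := by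
    rw [← integral_const_mul]
    refine setIntegral_mono_on (hi.const_mul m).integrableOn hbi.integrableOn measurableSet_Icc ?_
    intro u hu
    exact mul_le_mul_of_nonneg_right (hm u hu) (fejer_nonneg hl _)
  have h2 : -(M * (8 / (l * a))) ≤ ∫ u in Ioi (0:ℝ) \ Icc (c - a) (c + a), b u * fejer l (c - u) := by
    have h3 : ∫ u in Ioi (0:ℝ) \ Icc (c - a) (c + a), -(M * fejer l (c - u))
        ≤ ∫ u in Ioi (0:ℝ) \ Icc (c - a) (c + a), b u * fejer l (c - u) := by
      refine setIntegral_mono_on (hi.const_mul M).neg.integrableOn hbi.integrableOn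
        (measurableSet_Ioi.diff measurableSet_Icc) ?_
      intro u _
      have := (abs_le.mp (hM u)).1
      have h0 := fejer_nonneg hl (c - u)
      nlinarith
    refine le_trans ?_ h3
    rw [integral_neg, integral_const_mul]
    apply neg_le_neg
    refine mul_le_mul_of_nonneg_left ?_ hM0
    have h4 : ∫ u in Ioi (0:ℝ) \ Icc (c - a) (c + a), fejer l (c - u)
        ≤ ∫ u in {u : ℝ | a < |c - u|}, fejer l (c - u) := by
      refine setIntegral_mono_set hi.integrableOn ?_ ?_
      · exact Eventually.of_forall fun u => fejer_nonneg hl _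
      · refine LE.le.eventuallyLE ?_
        intro u hu
        have h5 := hu.2
        rw [mem_Icc, not_and_or, not_le, not_le] at h5
        rw [mem_ofPred_eq, lt_abs]
        rcases h5 with h5 | h5
        · left; linarith
        · right; linarith
    refine h4.trans ?_
    have hms : MeasurableSet {u : ℝ | a < |c - u|} := measurableSet_lt measurable_const (by fun_prop)
    have hms' : MeasurableSet {v : ℝ | a < |v|} := measurableSet_lt measurable_const (by fun_prop)
    have h6 : ∫ u in {u : ℝ | a < |c - u|}, fejer l (c - u) = ∫ v in {v : ℝ | a < |v|}, fejer l v := by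
      rw [← integral_indicator hms, ← integral_indicator hms',
        ← integral_sub_left_eq_self ({v : ℝ | a < |v|}.indicator (fejer l)) volume c]
      congr 1
    rw [h6]
    exact integral_tail_fejer hl ha
  rw [hsplit]
  linarith

variable {f : ℕ → ℝ}

/-- `B(u) = S(e^u) e^{-u}` satisfies a slow decrease condition. -/
lemma bfun_ge_of_le (hf : ∀ n, 0 ≤ f n) (A : ℝ) {y u : ℝ} (hyu : y ≤ u) :
    (bfun f A y + A) * Real.exp (-(u - y)) ≤ bfun f A u + A := by
  unfold bfun
  have h1 : summ f (Real.exp y) ≤ summ f (Real.exp u) := summ_mono hf (Real.exp_le_exp.mpr hyu)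
  have h2 : Real.exp (-y) * Real.exp (-(u - y)) = Real.exp (-u) := by
    rw [← Real.exp_add]; ring_nf
  calc (summ f (Real.exp y) * Real.exp (-y) - A + A) * Real.exp (-(u - y))
      = summ f (Real.exp y) * (Real.exp (-y) * Real.exp (-(u - y))) := by ring
    _ = summ f (Real.exp y) * Real.exp (-u) := by rw [h2]
    _ ≤ summ f (Real.exp u) * Real.exp (-u) := by gcongr
    _ = _ := by ring

/-- **Wiener-Ikehara theorem** (nonnegative coefficients, a priori linear bound). -/
theorem wiener_ikehara (hf : ∀ n, 0 ≤ f n) {C : ℝ} (hC : ∀ x : ℝ, 0 ≤ x → summ f x ≤ C * x)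
    (A : ℝ) {F : ℂ → ℂ} (hF : ContinuousOn F {s | 1 ≤ s.re})
    (hFL : ∀ s : ℂ, 1 < s.re → F s = LSeries (fun n => (f n : ℂ)) s - A / (s - 1)) :
    Tendsto (fun x : ℝ => summ f x / x) atTop (𝓝 A) := by
  set g : ℂ → ℂ := fun s => (F s - A) / s with hgdef
  have hg : ContinuousOn g {s | 1 ≤ s.re} := by
    refine (hF.sub continuousOn_const).div continuousOn_id ?_
    intro s hs h0
    rw [mem_ofPred_eq] at hs
    change s = 0 at h0
    rw [h0, zero_re] at hs
    linarith
  have hgL : ∀ s : ℂ, 1 < s.re → g s = LSeries (fun n => (f n : ℂ)) s / s - A / (s - 1) := by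
    intro s hs
    have hs0 : s ≠ 0 := by
      rintro rfl
      simp at hs
      linarith
    have hs1 : s - 1 ≠ 0 := by
      intro h
      have : s = 1 := by linear_combination h
      rw [this] at hs
      simp at hs
    simp only [hgdef]
    rw [hFL s hs]
    field_simp
    ring
  have hbm := measurable_bfun hf A
  have hM := abs_bfun_le hf hC A
  set M := C + |A| with hMdef
  have hM0 : 0 ≤ M := (abs_nonneg _).trans (hM 0)
  have hB0 : ∀ u, 0 ≤ bfun f A u + A := by
    intro u
    unfold bfun
    have := mul_nonneg (summ_nonneg hf (Real.exp u)) (Real.exp_pos (-u)).le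
    linarith
  have hBC : ∀ u, bfun f A u + A ≤ C := by
    intro u
    unfold bfun
    have := hC _ (Real.exp_pos u).le
    calc summ f (Real.exp u) * Real.exp (-u) - A + A = summ f (Real.exp u) * Real.exp (-u) := by ring
      _ ≤ C * Real.exp u * Real.exp (-u) := by gcongr
      _ = C := by rw [mul_assoc, ← Real.exp_add]; simp
  have hC0 : 0 ≤ C := (hB0 0).trans (hBC 0)
  have hpi : 0 < 8 / Real.pi ^ 2 := by positivity
  -- the main estimate
  have main : ∀ ε : ℝ, 0 < ε → ∀ a : ℝ, 0 < a →
      ∀ᶠ y in atTop, (bfun f A y + A) * Real.exp (-(2 * a)) - A ≤ ε ∧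
        A - (bfun f A y + A) * Real.exp (2 * a) ≤ ε := by
    intro ε hε a ha
    obtain ⟨l, hl, hl1, hl2⟩ : ∃ l : ℝ, 0 < l ∧ 1 / l ≤ a ∧
        M * (8 / (l * a)) ≤ ε * (8 / Real.pi ^ 2) / 2 := by
      have h1 : Tendsto (fun l : ℝ => 1 / l) atTop (𝓝 0) := by
        simpa using! tendsto_inv_atTop_zero (𝕜 := ℝ)
      have h2 : Tendsto (fun l : ℝ => M * (8 / (l * a))) atTop (𝓝 0) := by
        have : Tendsto (fun l : ℝ => (M * 8 / a) * (1 / l)) atTop (𝓝 (M * 8 / a * 0)) :=
          h1.const_mul _
        rw [mul_zero] at this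
        refine this.congr' ?_
        filter_upwards [eventually_gt_atTop 0] with l hl
        field_simp
      have h3 : ∀ᶠ l : ℝ in atTop, 1 / l ≤ a := (h1.eventually_lt_const ha).mono fun _ h => h.le
      have h4 : ∀ᶠ l : ℝ in atTop, M * (8 / (l * a)) ≤ ε * (8 / Real.pi ^ 2) / 2 :=
        (h2.eventually_lt_const (by positivity)).mono fun _ h => h.le
      obtain ⟨l, h5, h6, h7⟩ := ((eventually_gt_atTop 0).and (h3.and h4)).exists
      exact ⟨l, h5, h6, h7⟩
    have hI := tendsto_conv_zero hf hC A hg hgL hl
    have hIe : ∀ᶠ c in atTop, |∫ u in Ioi (0:ℝ), bfun f A u * fejer l (c - u)|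
        ≤ ε * (8 / Real.pi ^ 2) / 2 := by
      have := hI.abs
      rw [abs_zero] at this
      exact (this.eventually_lt_const (by positivity)).mono fun _ h => h.le
    have hI1 : ∀ᶠ y in atTop, |∫ u in Ioi (0:ℝ), bfun f A u * fejer l ((y + a) - u)|
        ≤ ε * (8 / Real.pi ^ 2) / 2 :=
      (tendsto_atTop_add_const_right atTop a tendsto_id).eventually hIe
    have hI2 : ∀ᶠ y in atTop, |∫ u in Ioi (0:ℝ), bfun f A u * fejer l ((y - a) - u)|
        ≤ ε * (8 / Real.pi ^ 2) / 2 :=
      (tendsto_atTop_add_const_right atTop (-a) tendsto_id).eventually hIe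
    filter_upwards [hI1, hI2, eventually_gt_atTop (2 * a), eventually_gt_atTop 0] with y h1 h2 h3 h4
    constructor
    · -- upper bound
      by_contra hcon
      push Not at hcon
      set m := (bfun f A y + A) * Real.exp (-(2 * a)) - A with hm
      have hcl := conv_lower hbm hM hl ha (c := y + a) (m := m) (by linarith) ?_
      · have hJ := integral_center_fejer hl hl1 (y + a)
        have h5 := (abs_le.mp h1).2
        nlinarith
      · intro u hu
        have hu1 : y ≤ u := by linarith [hu.1]
        have hu2 : u - y ≤ 2 * a := by linarith [hu.2]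
        have h6 := bfun_ge_of_le hf A hu1
        have h7 : (bfun f A y + A) * Real.exp (-(2 * a)) ≤ (bfun f A y + A) * Real.exp (-(u - y)) := by
          refine mul_le_mul_of_nonneg_left ?_ (hB0 y)
          exact Real.exp_le_exp.mpr (by linarith)
        rw [hm]
        linarith
    · by_contra hcon
      push Not at hcon
      set m := A - (bfun f A y + A) * Real.exp (2 * a) with hm
      have hM' : ∀ u, |(fun u => -bfun f A u) u| ≤ M := by
        intro u; simp only [abs_neg]; exact hM u
      have hcl := conv_lower (b := fun u => -bfun f A u) hbm.neg hM' hl ha (c := y - a) (m := m)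
        (by linarith) ?_
      · have hJ := integral_center_fejer hl hl1 (y - a)
        have h5 := (abs_le.mp h2).1
        have h6 : ∫ u in Ioi (0:ℝ), (fun u => -bfun f A u) u * fejer l ((y - a) - u)
            = -∫ u in Ioi (0:ℝ), bfun f A u * fejer l ((y - a) - u) := by
          rw [← integral_neg]
          congr 1
          ext u
          ring
        rw [h6] at hcl
        nlinarith
      · intro u hu
        have hu1 : u ≤ y := by linarith [hu.2]
        have hu2 : y - u ≤ 2 * a := by linarith [hu.1]
        have h6 := bfun_ge_of_le hf A hu1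
        have h7 : (bfun f A u + A) ≤ (bfun f A y + A) * Real.exp (y - u) := by
          have h8 : (bfun f A u + A) * Real.exp (-(y - u)) * Real.exp (y - u) = bfun f A u + A := by
            rw [mul_assoc, ← Real.exp_add]; simp
          rw [← h8]
          gcongr
        have h9 : (bfun f A y + A) * Real.exp (y - u) ≤ (bfun f A y + A) * Real.exp (2 * a) := by
          refine mul_le_mul_of_nonneg_left ?_ (hB0 y)
          exact Real.exp_le_exp.mpr (by linarith)
        rw [hm]
        linarith
  -- conclusion for `bfun`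
  have hlim : Tendsto (fun y => bfun f A y + A) atTop (𝓝 A) := by
    rw [Metric.tendsto_nhds]
    intro ε hε
    -- choose a with C (e^{2a} - 1) < ε/2
    have hexp : Tendsto (fun a : ℝ => C * (Real.exp (2 * a) - 1)) (𝓝[>] 0) (𝓝 0) := by
      have : Tendsto (fun a : ℝ => C * (Real.exp (2 * a) - 1)) (𝓝 0)
          (𝓝 (C * (Real.exp (2 * 0) - 1))) := by
        apply Continuous.tendsto
        fun_prop
      simp only [mul_zero, Real.exp_zero, sub_self] at this
      exact this.mono_left nhdsWithin_le_nhds
    have hexp2 : ∀ᶠ a : ℝ in 𝓝[>] 0, C * (Real.exp (2 * a) - 1) < ε / 2 :=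
      hexp.eventually_lt_const (by positivity)
    obtain ⟨a, ha1, ha2⟩ := (hexp2.and self_mem_nhdsWithin).exists
    have ha : 0 < a := ha2
    filter_upwards [main (ε / 3) (by positivity) a ha] with y hy
    have hB0y := hB0 y
    have hBCy := hBC y
    have e1 : 1 ≤ Real.exp (2 * a) := Real.one_le_exp (by positivity)
    have e2 : 1 - Real.exp (-(2 * a)) ≤ Real.exp (2 * a) - 1 := by
      have h1 : Real.exp (2 * a) * Real.exp (-(2 * a)) = 1 := by rw [← Real.exp_add]; simp
      have h2 : 0 < Real.exp (-(2 * a)) := Real.exp_pos _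
      nlinarith [sq_nonneg (Real.exp (2 * a) - 1)]
    rw [Real.dist_eq, abs_lt]
    constructor
    · have h1 := hy.2
      have h2 : (bfun f A y + A) * (Real.exp (2 * a) - 1) ≤ C * (Real.exp (2 * a) - 1) := by
        refine mul_le_mul_of_nonneg_right hBCy (by linarith)
      nlinarith
    · have h1 := hy.1
      have h2 : (bfun f A y + A) * (1 - Real.exp (-(2 * a))) ≤ C * (Real.exp (2 * a) - 1) := by
        have h3 : (bfun f A y + A) * (1 - Real.exp (-(2 * a)))
            ≤ (bfun f A y + A) * (Real.exp (2 * a) - 1) :=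
          mul_le_mul_of_nonneg_left e2 hB0y
        have h4 : (bfun f A y + A) * (Real.exp (2 * a) - 1) ≤ C * (Real.exp (2 * a) - 1) :=
          mul_le_mul_of_nonneg_right hBCy (by linarith)
        linarith
      nlinarith
  have := hlim.comp Real.tendsto_log_atTop
  refine this.congr' ?_
  filter_upwards [eventually_gt_atTop 0] with x hx
  simp only [Function.comp, bfun]
  rw [Real.exp_neg, Real.exp_log hx]
  field_simp
  ring

end Pool.Agent.PntAP
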