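import Pool.Agent.Lib.PntAP.Fejer

/-!
# The Wiener-Ikehara theorem for Dirichlet series with nonnegative coefficients
(with an a priori Chebyshev bound)
-/

set_option autoImplicit false

open MeasureTheory Filter Topology Set Complex

namespace Pool.Agent.PntAP

/-- Summatory function. -/
noncomputable def summ (f : ℕ → ℝ) (x : ℝ) : ℝ := ∑ k ∈ Finset.Icc 1 ⌊x⌋₊, f k

variable {f : ℕ → ℝ}

lemma summ_nonneg (hf : ∀ n, 0 ≤ f n) (x : ℝ) : 0 ≤ summ f x :=
  Finset.sum_nonneg fun _ _ => hf _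

lemma summ_mono (hf : ∀ n, 0 ≤ f n) : Monotone (summ f) := by
  intro x y hxy
  exact Finset.sum_le_sum_of_subset_of_nonneg
    (Finset.Icc_subset_Icc_right (Nat.floor_mono hxy)) (fun _ _ _ => hf _)

lemma measurable_summ (hf : ∀ n, 0 ≤ f n) : Measurable (summ f) := (summ_mono hf).measurable

/-- The normalised error in logarithmic variable. -/
noncomputable def bfun (f : ℕ → ℝ) (A u : ℝ) : ℝ := summ f (Real.exp u) * Real.exp (-u) - A

lemma measurable_bfun (hf : ∀ n, 0 ≤ f n) (A : ℝ) : Measurable (bfun f A) := by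
  unfold bfun
  have := measurable_summ hf
  fun_prop

lemma abs_bfun_le (hf : ∀ n, 0 ≤ f n) {C : ℝ} (hC : ∀ x : ℝ, 0 ≤ x → summ f x ≤ C * x) (A u : ℝ) :
    |bfun f A u| ≤ C + |A| := by
  unfold bfun
  have h1 : summ f (Real.exp u) * Real.exp (-u) ≤ C := by
    have := hC _ (Real.exp_pos u).le
    calc summ f (Real.exp u) * Real.exp (-u) ≤ C * Real.exp u * Real.exp (-u) := by gcongr
      _ = C := by rw [mul_assoc, ← Real.exp_add]; simp
  have h0 : 0 ≤ summ f (Real.exp u) * Real.exp (-u) :=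
    mul_nonneg (summ_nonneg hf _) (Real.exp_pos _).le
  rw [abs_le]
  constructor
  · have := le_abs_self A
    have : 0 ≤ C := h0.trans h1
    linarith
  · have := neg_abs_le A
    linarith

lemma integrableOn_bfun (hf : ∀ n, 0 ≤ f n) {C : ℝ} (hC : ∀ x : ℝ, 0 ≤ x → summ f x ≤ C * x)
    (A : ℝ) {w : ℂ} (hw : 0 < w.re) :
    IntegrableOn (fun u : ℝ => (bfun f A u : ℂ) * cexp (-w * u)) (Ioi 0) := by
  have hM := abs_bfun_le hf hC A
  refine Integrable.mono' (g := fun u => (C + |A|) * Real.exp (-w.re * u))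
    ((exp_neg_integrableOn_Ioi 0 hw).const_mul _) ?_ ?_
  · have := measurable_bfun hf A
    have h : Measurable (fun u : ℝ => (bfun f A u : ℂ) * cexp (-w * u)) := by fun_prop
    exact h.aestronglyMeasurable
  · refine Eventually.of_forall fun u => ?_
    rw [norm_mul, Complex.norm_exp, norm_real, Real.norm_eq_abs]
    have : (-w * (u:ℂ)).re = -w.re * u := by simp
    rw [this]
    gcongr
    exact hM u

lemma laplace_bfun (hf : ∀ n, 0 ≤ f n) {C : ℝ} (hC : ∀ x : ℝ, 0 ≤ x → summ f x ≤ C * x)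
    (A : ℝ) {s : ℂ} (hs : 1 < s.re) :
    ∫ u in Ioi (0:ℝ), (bfun f A u : ℂ) * cexp (-(s - 1) * u)
      = LSeries (fun n => (f n : ℂ)) s / s - A / (s - 1) := by
  have hs0 : s ≠ 0 := by
    rintro rfl
    simp at hs
    linarith
  have hw : 0 < (s - 1).re := by simp; linarith
  have hO : (fun n : ℕ => ∑ k ∈ Finset.Icc 1 n, f k) =O[atTop] fun n => (n : ℝ) ^ (1 : ℝ) := by
    refine Asymptotics.IsBigO.of_bound C (Eventually.of_forall fun n => ?_)
    have h := hC n (Nat.cast_nonneg n)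
    unfold summ at h
    rw [Nat.floor_natCast] at h
    rw [Real.rpow_one, Real.norm_of_nonneg (Finset.sum_nonneg fun _ _ => hf _),
      Real.norm_of_nonneg (Nat.cast_nonneg n)]
    exact h
  have h1 := LSeries_eq_mul_integral_of_nonneg f (r := 1) zero_le_one hs hO hf
  have himg : (Real.exp '' Ioi (0:ℝ)) = Ioi (1:ℝ) := by
    ext x
    constructor
    · rintro ⟨u, hu, rfl⟩
      exact Real.one_lt_exp_iff.mpr hu
    · intro hx
      refine ⟨Real.log x, Real.log_pos hx, Real.exp_log (lt_trans one_pos hx)⟩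
  have h2 : ∫ t in Ioi (1:ℝ), (∑ k ∈ Finset.Icc 1 ⌊t⌋₊, (f k : ℂ)) * (t:ℂ) ^ (-(s + 1))
      = ∫ u in Ioi (0:ℝ), ((bfun f A u : ℂ) * cexp (-(s - 1) * u) + A * cexp (-(s - 1) * u)) := by
    rw [← himg, integral_image_eq_integral_abs_deriv_smul measurableSet_Ioi
      (fun x _ => (Real.hasDerivAt_exp x).hasDerivWithinAt) Real.exp_injective.injOn]
    refine setIntegral_congr_fun measurableSet_Ioi fun u _ => ?_
    have he : ((Real.exp u : ℝ) : ℂ) ^ (-(s + 1)) = cexp (-(s + 1) * u) := by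
      rw [Complex.cpow_def_of_ne_zero (by exact_mod_cast (Real.exp_pos u).ne'),
        ← Complex.ofReal_log (Real.exp_pos u).le, Real.log_exp]
      ring_nf
    have hsum : (∑ k ∈ Finset.Icc 1 ⌊Real.exp u⌋₊, (f k : ℂ)) = ((summ f (Real.exp u) : ℝ) : ℂ) := by
      unfold summ; push_cast; rfl
    rw [he, hsum, abs_of_pos (Real.exp_pos u), real_smul]
    unfold bfun
    push_cast
    have e1 : cexp (-(s + 1) * u) = cexp (-(s-1) * u) * cexp (-(u:ℂ)) * cexp (-(u:ℂ)) := by
      rw [← Complex.exp_add, ← Complex.exp_add]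
      ring_nf
    have e2 : cexp (u:ℂ) * cexp (-(u:ℂ)) = 1 := by
      rw [← Complex.exp_add]; simp
    rw [e1]
    linear_combination ((summ f (Real.exp u) : ℂ) * cexp (-(s-1) * u) * cexp (-(u:ℂ))) * e2
  have hint : ∫ u in Ioi (0:ℝ), (A:ℂ) * cexp (-(s - 1) * u) = A / (s - 1) := by
    rw [integral_const_mul]
    have := integral_exp_mul_complex_Ioi (a := -(s-1)) (by simp; linarith) 0
    rw [this]
    simp
    have : (s - 1) ≠ 0 := by
      intro h; rw [h] at hw; simp at hw
    have h' : (1 - s) ≠ 0 := by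
      intro h; apply this; linear_combination -h
    field_simp
    ring
  have hintg : IntegrableOn (fun u : ℝ => (A:ℂ) * cexp (-(s - 1) * u)) (Ioi 0) := by
    have := integrableOn_exp_mul_complex_Ioi (a := -(s-1)) (by simp; linarith) 0
    exact this.const_mul _
  rw [h1, h2, integral_add (integrableOn_bfun hf hC A hw) hintg, hint]
  field_simp
  ring


/-- Fubini step. -/
lemma fubini_step (hf : ∀ n, 0 ≤ f n) {C : ℝ} (hC : ∀ x : ℝ, 0 ≤ x → summ f x ≤ C * x)
    (A : ℝ) {l : ℝ} (hl : 0 < l) {d : ℝ} (hd : 0 < d) (y : ℝ) :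
    ∫ u in Ioi (0:ℝ), ((bfun f A u * Real.exp (-d * u) * fejer l (y - u) : ℝ) : ℂ)
      = ∫ t in Ioc (-l) l, ((1 - |t| / l : ℝ) : ℂ) * cexp (I * t * y) *
        (LSeries (fun n => (f n : ℂ)) (1 + d + I * t) / (1 + d + I * t) - A / (d + I * t)) := by
  have hM := abs_bfun_le hf hC A
  have hbm := measurable_bfun hf A
  set H : ℝ → ℝ → ℂ := fun t u => ((1 - |t| / l : ℝ) : ℂ) * cexp (I * t * y) *
    ((bfun f A u : ℂ) * cexp (-(d + I * t) * u)) with hH
  have hHm : Measurable (fun p : ℝ × ℝ => H p.1 p.2) := by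
    simp only [hH]
    fun_prop
  have hint : Integrable (fun p : ℝ × ℝ => H p.1 p.2)
      ((volume.restrict (Ioc (-l) l)).prod (volume.restrict (Ioi 0))) := by
    have hg : Integrable (fun p : ℝ × ℝ => (C + |A|) * Real.exp (-d * p.2))
        ((volume.restrict (Ioc (-l) l)).prod (volume.restrict (Ioi 0))) := by
      have h1 : Integrable (fun _ : ℝ => (C + |A|)) (volume.restrict (Ioc (-l) l)) :=
        integrable_const _
      exact h1.mul_prod (exp_neg_integrableOn_Ioi 0 hd)
    refine hg.mono' hHm.aestronglyMeasurable ?_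
    rw [Measure.prod_restrict]
    filter_upwards [ae_restrict_mem (measurableSet_Ioc.prod measurableSet_Ioi)] with p hp
    have hp1 : |p.1| ≤ l := abs_le.mpr ⟨hp.1.1.le, hp.1.2⟩
    simp only [hH]
    rw [norm_mul, norm_mul, norm_mul, Complex.norm_exp, Complex.norm_exp, norm_real, norm_real,
      Real.norm_eq_abs, Real.norm_eq_abs]
    have e1 : (I * (p.1:ℂ) * y).re = 0 := by simp
    have e2 : (-(d + I * (p.1:ℂ)) * (p.2:ℂ)).re = -d * p.2 := by simp
    rw [e1, e2, Real.exp_zero, mul_one]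
    have e3 : |1 - |p.1| / l| ≤ 1 := by
      have h1 : |p.1| / l ≤ 1 := (div_le_one hl).mpr hp1
      have h2 : 0 ≤ |p.1| / l := by positivity
      rw [abs_le]; constructor <;> linarith
    calc |1 - |p.1| / l| * (|bfun f A p.2| * Real.exp (-d * p.2))
        ≤ 1 * ((C + |A|) * Real.exp (-d * p.2)) := by
          gcongr
          exact hM _
      _ = _ := by ring
  have hswap := integral_integral_swap (f := H) (μ := volume.restrict (Ioc (-l) l))
    (ν := volume.restrict (Ioi 0)) hint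
  have lhs : ∫ t in Ioc (-l) l, ∫ u in Ioi (0:ℝ), H t u
      = ∫ t in Ioc (-l) l, ((1 - |t| / l : ℝ) : ℂ) * cexp (I * t * y) *
        (LSeries (fun n => (f n : ℂ)) (1 + d + I * t) / (1 + d + I * t) - A / (d + I * t)) := by
    refine setIntegral_congr_fun measurableSet_Ioc fun t _ => ?_
    simp only [hH]
    rw [integral_const_mul]
    congr 1
    have := laplace_bfun hf hC A (s := 1 + d + I * t) (by simp; exact hd)
    have e : (1 + (d:ℂ) + I * t - 1) = d + I * t := by ring
    rw [e] at this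
    exact this
  have rhs : ∫ u in Ioi (0:ℝ), ∫ t in Ioc (-l) l, H t u
      = ∫ u in Ioi (0:ℝ), ((bfun f A u * Real.exp (-d * u) * fejer l (y - u) : ℝ) : ℂ) := by
    refine setIntegral_congr_fun measurableSet_Ioi fun u _ => ?_
    have e : ∀ t : ℝ, H t u = ((bfun f A u * Real.exp (-d * u) : ℝ) : ℂ) *
        (((1 - |t| / l : ℝ) : ℂ) * cexp (I * t * (y - u : ℝ))) := by
      intro t
      simp only [hH]
      push_cast
      have : cexp (-(d + I * t) * u) = cexp (-d * u) * cexp (-(I * t * u)) := by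
        rw [← Complex.exp_add]; ring_nf
      have h2 : cexp (I * t * (y - u)) = cexp (I * t * y) * cexp (-(I * t * u)) := by
        rw [← Complex.exp_add]; ring_nf
      rw [this, h2]
      ring
    simp only [e]
    rw [integral_const_mul, ← intervalIntegral.integral_of_le (by linarith),
      integral_triangle hl]
    push_cast
    ring
  rw [← rhs, ← hswap, lhs]

lemma re_aux (d t : ℝ) : (1 + (d:ℂ) + I * t).re = 1 + d := by simp

/-- The limit identity on the line `re s = 1`. -/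
lemma limit_identity (hf : ∀ n, 0 ≤ f n) {C : ℝ} (hC : ∀ x : ℝ, 0 ≤ x → summ f x ≤ C * x)
    (A : ℝ) {g : ℂ → ℂ} (hg : ContinuousOn g {s | 1 ≤ s.re})
    (hgL : ∀ s : ℂ, 1 < s.re → g s = LSeries (fun n => (f n : ℂ)) s / s - A / (s - 1))
    {l : ℝ} (hl : 0 < l) (y : ℝ) :
    ∫ u in Ioi (0:ℝ), ((bfun f A u * fejer l (y - u) : ℝ) : ℂ)
      = ∫ t in Ioc (-l) l, ((1 - |t| / l : ℝ) : ℂ) * cexp (I * t * y) * g (1 + I * t) := by
  have hM := abs_bfun_le hf hC A
  have hCA : 0 ≤ C + |A| := (abs_nonneg _).trans (hM 0)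
  have hbm := measurable_bfun hf A
  have hfm := measurable_fejer l
  have hfi : Integrable (fun u => fejer l (y - u)) := (integrable_fejer hl).comp_sub_left y
  have hid : ∀ n : ℕ, ∫ u in Ioi (0:ℝ),
      ((bfun f A u * Real.exp (-(1 / ((n:ℝ) + 1)) * u) * fejer l (y - u) : ℝ) : ℂ)
      = ∫ t in Ioc (-l) l, ((1 - |t| / l : ℝ) : ℂ) * cexp (I * t * y) *
        g (1 + ((1 / ((n:ℝ) + 1) : ℝ) : ℂ) + I * t) := by
    intro n
    have hd : (0:ℝ) < 1 / ((n:ℝ) + 1) := by positivity
    rw [fubini_step hf hC A hl hd y]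
    refine setIntegral_congr_fun measurableSet_Ioc fun t _ => ?_
    rw [hgL _ (by rw [re_aux]; linarith)]
    have e : (1 + (((1 / ((n:ℝ) + 1) : ℝ)):ℂ) + I * t - 1) = ((1 / ((n:ℝ) + 1) : ℝ):ℂ) + I * t := by ring
    rw [e]
  have hdn : Tendsto (fun n : ℕ => (1 / ((n:ℝ) + 1))) atTop (𝓝 0) := tendsto_one_div_add_atTop_nhds_zero_nat
  have hL : Tendsto (fun n : ℕ => ∫ u in Ioi (0:ℝ),
      ((bfun f A u * Real.exp (-(1 / ((n:ℝ) + 1)) * u) * fejer l (y - u) : ℝ) : ℂ)) atTop
      (𝓝 (∫ u in Ioi (0:ℝ), ((bfun f A u * fejer l (y - u) : ℝ) : ℂ))) := by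
    refine tendsto_integral_of_dominated_convergence
      (fun u => (C + |A|) * fejer l (y - u)) ?_ ?_ ?_ ?_
    · intro n
      have : Measurable (fun u : ℝ => ((bfun f A u * Real.exp (-(1 / ((n:ℝ) + 1)) * u) *
        fejer l (y - u) : ℝ) : ℂ)) := by
        have h1 : Measurable (fun u => fejer l (y - u)) := hfm.comp (by fun_prop)
        fun_prop
      exact this.aestronglyMeasurable
    · exact (hfi.const_mul _).integrableOn
    · intro n
      filter_upwards [ae_restrict_mem measurableSet_Ioi] with u hu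
      have hu0 : (0:ℝ) < u := hu
      rw [norm_real, Real.norm_eq_abs, abs_mul, abs_mul, abs_of_nonneg (fejer_nonneg hl _),
        abs_of_pos (Real.exp_pos _)]
      have h1 : Real.exp (-(1 / ((n:ℝ) + 1)) * u) ≤ 1 := by
        rw [Real.exp_le_one_iff]
        have : (0:ℝ) < 1 / ((n:ℝ) + 1) := by positivity
        nlinarith
      have h2 := hM u
      have h3 := fejer_nonneg hl (y - u)
      calc |bfun f A u| * Real.exp (-(1 / ((n:ℝ) + 1)) * u) * fejer l (y - u)
          ≤ (C + |A|) * 1 * fejer l (y - u) := by gcongr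
        _ = _ := by ring
    · refine Eventually.of_forall fun u => ?_
      have h1 : Tendsto (fun n : ℕ => bfun f A u * Real.exp (-(1 / ((n:ℝ) + 1)) * u) *
          fejer l (y - u)) atTop (𝓝 (bfun f A u * Real.exp (-0 * u) * fejer l (y - u))) := by
        refine Tendsto.mul_const _ (Tendsto.const_mul _ ?_)
        exact (Real.continuous_exp.tendsto _).comp ((hdn.neg).mul_const u)
      have h2 : bfun f A u * Real.exp (-0 * u) * fejer l (y - u) = bfun f A u * fejer l (y - u) := by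
        simp
      rw [h2] at h1
      exact (Complex.continuous_ofReal.tendsto _).comp h1
  obtain ⟨K, hK⟩ : ∃ K : ℝ, ∀ p ∈ (Icc (0:ℝ) 1 ×ˢ Icc (-l) l),
      ‖g (1 + (p.1:ℂ) + I * p.2)‖ ≤ K := by
    refine (isCompact_Icc.prod isCompact_Icc).exists_bound_of_continuousOn
      (f := fun p : ℝ × ℝ => g (1 + (p.1:ℂ) + I * p.2)) ?_
    refine hg.comp (by fun_prop) ?_
    intro p hp
    have := hp.1.1
    rw [mem_ofPred_eq, re_aux]
    linarith
  have hgline : ContinuousOn (fun t : ℝ => g (1 + I * t)) univ := by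
    refine hg.comp (by fun_prop) ?_
    intro t _
    simp
  have hR : Tendsto (fun n : ℕ => ∫ t in Ioc (-l) l, ((1 - |t| / l : ℝ) : ℂ) * cexp (I * t * y) *
        g (1 + ((1 / ((n:ℝ) + 1) : ℝ) : ℂ) + I * t)) atTop
      (𝓝 (∫ t in Ioc (-l) l, ((1 - |t| / l : ℝ) : ℂ) * cexp (I * t * y) * g (1 + I * t))) := by
    refine tendsto_integral_of_dominated_convergence (fun _ => K) ?_ ?_ ?_ ?_
    · intro n
      have hc : Continuous (fun t : ℝ => g (1 + ((1 / ((n:ℝ) + 1) : ℝ) : ℂ) + I * t)) := by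
        rw [← continuousOn_univ]
        refine hg.comp (by fun_prop) ?_
        intro t _
        rw [mem_ofPred_eq, re_aux]
        have : (0:ℝ) < 1 / ((n:ℝ) + 1) := by positivity
        linarith
      have : Continuous (fun t : ℝ => ((1 - |t| / l : ℝ) : ℂ) * cexp (I * t * y) *
        g (1 + ((1 / ((n:ℝ) + 1) : ℝ) : ℂ) + I * t)) := by
        refine Continuous.mul ?_ hc
        fun_prop
      exact this.aestronglyMeasurable
    · exact integrable_const _
    · intro n
      filter_upwards [ae_restrict_mem measurableSet_Ioc] with t ht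
      rw [norm_mul, norm_mul, norm_real, Complex.norm_exp, Real.norm_eq_abs]
      have e1 : (I * (t:ℂ) * y).re = 0 := by simp
      rw [e1, Real.exp_zero, mul_one]
      have ht1 : |t| ≤ l := abs_le.mpr ⟨ht.1.le, ht.2⟩
      have e3 : |1 - |t| / l| ≤ 1 := by
        have h1 : |t| / l ≤ 1 := (div_le_one hl).mpr ht1
        have h2 : 0 ≤ |t| / l := by positivity
        rw [abs_le]; constructor <;> linarith
      have hd0 : (0:ℝ) ≤ 1 / ((n:ℝ) + 1) := by positivity
      have hd1 : 1 / ((n:ℝ) + 1) ≤ 1 := by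
        rw [div_le_one (by positivity)]
        have : (0:ℝ) ≤ n := Nat.cast_nonneg n
        linarith
      have h4 := hK (1 / ((n:ℝ) + 1), t) ⟨⟨hd0, hd1⟩, ⟨ht.1.le, ht.2⟩⟩
      simp only at h4
      calc |1 - |t| / l| * ‖g (1 + ((1 / ((n:ℝ) + 1) : ℝ) : ℂ) + I * t)‖ ≤ 1 * K := by
            gcongr
        _ = K := one_mul K
    · refine Eventually.of_forall fun t => ?_
      refine Tendsto.const_mul _ ?_
      have hcw : Tendsto g (𝓝[{s | 1 ≤ s.re}] (1 + I * t)) (𝓝 (g (1 + I * t))) :=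
        hg (1 + I * t) (by simp)
      refine hcw.comp ?_
      rw [tendsto_nhdsWithin_iff]
      constructor
      · have h1 : Tendsto (fun n : ℕ => (1 + ((1 / ((n:ℝ) + 1) : ℝ) : ℂ) + I * t)) atTop
            (𝓝 (1 + ((0:ℝ):ℂ) + I * t)) := by
          refine Tendsto.add_const _ (Tendsto.const_add _ ?_)
          exact (Complex.continuous_ofReal.tendsto _).comp hdn
        simpa using! h1
      · refine Eventually.of_forall fun n => ?_
        rw [mem_ofPred_eq, re_aux]
        have : (0:ℝ) < 1 / ((n:ℝ) + 1) := by positivity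
        linarith
  have hL' := hL
  simp_rw [hid] at hL'
  exact tendsto_nhds_unique hL' hR

/-- Riemann-Lebesgue. -/
lemma tendsto_conv_zero (hf : ∀ n, 0 ≤ f n) {C : ℝ} (hC : ∀ x : ℝ, 0 ≤ x → summ f x ≤ C * x)
    (A : ℝ) {g : ℂ → ℂ} (hg : ContinuousOn g {s | 1 ≤ s.re})
    (hgL : ∀ s : ℂ, 1 < s.re → g s = LSeries (fun n => (f n : ℂ)) s / s - A / (s - 1))
    {l : ℝ} (hl : 0 < l) :
    Tendsto (fun y : ℝ => ∫ u in Ioi (0:ℝ), bfun f A u * fejer l (y - u)) atTop (𝓝 0) := by
  set h : ℝ → ℂ := (Ioc (-l) l).indicator (fun t => ((1 - |t| / l : ℝ) : ℂ) * g (1 + I * t)) with hh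
  have hRL := Real.tendsto_integral_exp_smul_cocompact h
  have hw : Tendsto (fun y : ℝ => -y / (2 * Real.pi)) atTop (cocompact ℝ) := by
    have h1 : Tendsto (fun y : ℝ => -y / (2 * Real.pi)) atTop atBot := by
      have : Tendsto (fun y : ℝ => y / (2 * Real.pi)) atTop atTop :=
        tendsto_id.atTop_div_const (by positivity)
      have h2 := tendsto_neg_atTop_atBot.comp this
      refine h2.congr fun y => ?_
      simp [neg_div]
    exact h1.mono_right atBot_le_cocompact
  have h2 := hRL.comp hw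
  have h3 : ∀ y : ℝ, (∫ v : ℝ, Real.fourierChar (-(v * (-y / (2 * Real.pi)))) • h v)
      = ((∫ u in Ioi (0:ℝ), bfun f A u * fejer l (y - u) : ℝ) : ℂ) := by
    intro y
    rw [← integral_complex_ofReal, limit_identity hf hC A hg hgL hl y,
      ← integral_indicator measurableSet_Ioc]
    congr 1
    ext t
    by_cases ht : t ∈ Ioc (-l) l
    · rw [hh, indicator_of_mem ht, indicator_of_mem ht, Circle.smul_def, Real.fourierChar_apply,
        smul_eq_mul]
      have e : (2 * Real.pi * -(t * (-y / (2 * Real.pi))) : ℝ) = t * y := by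
        have : Real.pi ≠ 0 := Real.pi_ne_zero
        field_simp
      rw [e]
      push_cast
      have e2 : (t:ℂ) * y * I = I * t * y := by ring
      rw [e2]
      ring
    · rw [hh, indicator_of_notMem ht, indicator_of_notMem ht, smul_zero]
  have h4 : Tendsto (fun y : ℝ => ((∫ u in Ioi (0:ℝ), bfun f A u * fejer l (y - u) : ℝ) : ℂ)) atTop
      (𝓝 ((0:ℝ):ℂ)) := by
    rw [ofReal_zero]
    refine h2.congr fun y => ?_
    simp only [Function.comp]
    exact h3 y
  exact (Complex.continuous_re.tendsto _).comp h4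

end Pool.Agent.PntAP
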